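import Pool.Agent.H62.BC.Targets

/-! row GEN of the board cat2_modules (MP_44217d_ag) -/

set_option autoImplicit false

open TensorProduct Module

namespace Pool.Agent.H36.BC

open Pool.Agent.H12.Defect Pool.Agent.H15.Defect Pool.Agent.H15.CX Pool.Agent.H2.WG
open Pool.Agent.H62.BC

universe u

/-- no generators -/
theorem gen_nil (k A : Type u) [Field k] [CommRing A] [Algebra k A] [Module.Finite k A] :
    BCc ((Algebra.lmul k A).comp (Algebra.ofId k A)) 1 := by
  intro n
  have e : (Fin (n * finrank k A) → k) ≃ₗ[k] (Fin n → A) :=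
    LinearEquiv.ofFinrankEq _ _ (by rw [Module.finrank_fin_fun, Module.finrank_pi_fintype]; simp)
  let f0 : ZZ k (n * finrank k A) →ₗ[k]
      Idm (powE ((Algebra.lmul k A).comp (Algebra.ofId k A)) (Fin n)) :=
    { toFun := fun z => ((z.fst, e z.snd) : k × (Fin n → A))
      map_add' := by
        intro a b
        apply Idm.ext'
        · rfl
        · exact map_add e _ _
      map_smul' := by
        intro c a
        apply Idm.ext'
        · rfl
        · exact map_smul e _ _ }
  have h1 : ∀ z, (f0 z).1 = z.fst := fun _ => rfl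
  have h2 : ∀ z, (f0 z).2 = e z.snd := fun _ => rfl
  have hact : ∀ (c : k) (v : Fin n → A),
      powE ((Algebra.lmul k A).comp (Algebra.ofId k A)) (Fin n) c v = c • v := by
    intro c v
    funext i
    rw [powE_apply]
    change (Algebra.ofId k A c) * v i = c • v i
    rw [Algebra.ofId_apply, Algebra.smul_def]
  let f : ZZ k (n * finrank k A) →ₐ[k]
      Idm (powE ((Algebra.lmul k A).comp (Algebra.ofId k A)) (Fin n)) :=
    AlgHom.ofLinearMap f0
      (by
        apply Idm.ext'
        · rfl
        · rw [h2]
          change e 0 = 0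
          exact map_zero e)
      (by
        intro z w
        apply Idm.ext'
        · rfl
        · rw [h2, Idm.mul_snd, h1, h1, h2, h2, hact, hact, TrivSqZeroExt.snd_mul, map_add, map_smul]
          congr 1
          rw [← map_smul, op_smul_eq_smul])
  have hf : Function.Surjective f := by
    intro a
    refine ⟨TrivSqZeroExt.inl a.1 + TrivSqZeroExt.inr (e.symm a.2), ?_⟩
    apply Idm.ext'
    · change (TrivSqZeroExt.inl a.1 + TrivSqZeroExt.inr (e.symm a.2) :
        TrivSqZeroExt k (Fin (n * finrank k A) → k)).fst = a.1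
      simp
    · change e (TrivSqZeroExt.inl a.1 + TrivSqZeroExt.inr (e.symm a.2) :
        TrivSqZeroExt k (Fin (n * finrank k A) → k)).snd = a.2
      simp
  exact (dle_ZZ k (n * finrank k A)).of_surjective f hf

/-- one more generator -/
theorem gen_cons {k A P : Type u} [Field k] [CommRing A] [Algebra k A] [CommRing P] [Algebra k P]
    (q : P →ₐ[k] A) (x : A) (L : ℕ)
    (hc : ∀ p y, ((Algebra.lmul k A).comp q) p (Algebra.lmul k A x y) =
      Algebra.lmul k A x (((Algebra.lmul k A).comp q) p y))
    (ht : (Algebra.lmul k A x) ^ (L + 1) = 0) :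
    ∃ q' : PT k P L →ₐ[k] A, (∀ p, q' (pt p 1) = q p) ∧ q' (pt 1 (tr k L)) = x ∧
      act ((Algebra.lmul k A).comp q) L (Algebra.lmul k A x) ht hc = (Algebra.lmul k A).comp q' := by
  have hx : x ^ (L + 1) = 0 := by
    rw [← map_pow] at ht
    have := LinearMap.congr_fun ht 1
    simpa using this
  let s : Tr k L →ₐ[k] A := Ideal.Quotient.liftₐ _ (Polynomial.aeval x) (by
    intro a ha
    obtain ⟨b, rfl⟩ := Ideal.mem_span_singleton.mp ha
    rw [map_mul, map_pow, Polynomial.aeval_X, hx, zero_mul])
  have hs : ∀ p : Polynomial k, s (Ideal.Quotient.mk _ p) = Polynomial.aeval x p := fun _ => rfl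
  let q' : PT k P L →ₐ[k] A :=
    (Algebra.TensorProduct.lift q s (fun p r => mul_comm _ _) : P ⊗[k] Tr k L →ₐ[k] A)
  have hq' : ∀ (p : P) (r : Tr k L), q' (pt p r) = q p * s r := fun _ _ => rfl
  refine ⟨q', fun p => ?_, ?_, ?_⟩
  · rw [hq', map_one, mul_one]
  · rw [hq', map_one, one_mul, tr, hs, Polynomial.aeval_X]
  · refine AlgHom.ext fun r => LinearMap.ext fun y => ?_
    induction r using PT.induction with
    | zero => rw [map_zero, map_zero]
    | add r r' hr hr' => rw [map_add, map_add, LinearMap.add_apply, LinearMap.add_apply, hr, hr']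
    | tmul p r =>
      rw [act_tmul]
      change q p * _ = q' (pt p r) * y
      rw [hq', mul_assoc]
      congr 1
      obtain ⟨a, rfl⟩ := Ideal.Quotient.mk_surjective r
      rw [trA_mk, hs]
      have : Polynomial.aeval (Algebra.lmul k A x) a = Algebra.lmul k A (Polynomial.aeval x a) :=
        Polynomial.aeval_algHom_apply (Algebra.lmul k A) x a
      rw [this]
      rfl

theorem pf_GEN (h : T_P1.{u}) : T_GEN.{u} := by
  intro k A _ _ _ _ _ l
  induction l with
  | nil =>
    intro _
    exact ⟨k, inferInstance, inferInstance, Algebra.ofId k A, 1, by simp, gen_nil k A⟩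
  | cons x l ih =>
    intro hl
    obtain ⟨P, iP, aP, q, C, hq, hC⟩ := ih fun y hy => hl y (List.mem_cons_of_mem x hy)
    have hc : ∀ p y, ((Algebra.lmul k A).comp q) p (Algebra.lmul k A x y) =
        Algebra.lmul k A x (((Algebra.lmul k A).comp q) p y) := by
      intro p y
      change q p * (x * y) = x * (q p * y)
      ring
    have hn : IsNilpotent (Algebra.lmul k A x) :=
      (hl x List.mem_cons_self).map (Algebra.lmul k A)
    obtain ⟨L, ht, C', hBC⟩ := h k P A ((Algebra.lmul k A).comp q) (Algebra.lmul k A x) hc C hn hC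
    obtain ⟨q', h1, h2, h3⟩ := gen_cons q x L hc ht
    refine ⟨PT k P L, inferInstance, inferInstance, q', C', ?_, ?_⟩
    · intro y hy
      rcases List.mem_cons.1 hy with rfl | hy
      · exact ⟨_, h2⟩
      · obtain ⟨p, hp⟩ := hq y hy
        exact ⟨pt p 1, (h1 p).trans hp⟩
    · rw [← h3]
      exact hBC

end Pool.Agent.H36.BC
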